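import Pool.Agent.P.MP_5d3202_gt.Main

/-!
For every irreducible Artin-Tits group of spherical type and rank at least three, the word length
with respect to `X_P` is unbounded on `X_NP`.
-/

set_option autoImplicit false

namespace Pool.Agent.Results.MP_5d3202_gt.StrictAllTypes

open Pool.Agent.P.MP_5d3202_gt

theorem result {S : Type*} [Finite S] (M : CoxeterMatrix S) (hrank : 3 ≤ Nat.card S)
    (hspherical : Finite M.Group) (hirreducible : (coxGraph M).Connected)
    (Δ : ArtinGroup M) (hΔ : IsGarside M Δ) :
    ∀ N : ℕ, ∃ g ∈ XNP M, N < wordLength (XP M Δ) g := by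
  classical
  have := Fintype.ofFinite S
  intro N
  exact unbounded M hirreducible (by rwa [← Nat.card_eq_fintype_card]) hΔ N

end Pool.Agent.Results.MP_5d3202_gt.StrictAllTypes
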